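import Pool.Agent.helper80.VQ.SpecFL

/-!
# Project VQ, row LDT: the derivative of a determinant
-/

set_option autoImplicit false

open scoped MatrixGroups ContDiff Topology UpperHalfPlane ComplexConjugate ENNReal
open UpperHalfPlane MeasureTheory Filter Set

namespace Pool.Agent.VQ

open Pool.Agent.RS
open Pool.Agent.VQE (nm)

theorem LDT_det {n : Type} [Fintype n] [DecidableEq n] (M : ℝ → Matrix n n ℝ) (N : Matrix n n ℝ)
    (t : ℝ) (h : ∀ i j, HasDerivAt (fun s => M s i j) (N i j) t) :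
    HasDerivAt (fun s => (M s).det) (∑ i, ((M t).updateRow i (N i)).det) t := by
  have e : ∀ s, (M s).det = ∑ σ : Equiv.Perm n, ((Equiv.Perm.sign σ : ℤ) : ℝ) * ∏ i, M s i (σ i) := by
    intro s
    rw [← Matrix.det_transpose, Matrix.det_apply']
    rfl
  have e2 : ∀ i, ((M t).updateRow i (N i)).det =
      ∑ σ : Equiv.Perm n, ((Equiv.Perm.sign σ : ℤ) : ℝ) * ((∏ j ∈ Finset.univ.erase i, M t j (σ j)) * N i (σ i)) := by
    intro i
    rw [← Matrix.det_transpose, Matrix.det_apply']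
    refine Finset.sum_congr rfl fun σ _ => ?_
    congr 1
    rw [← Finset.mul_prod_erase Finset.univ _ (Finset.mem_univ i), mul_comm]
    congr 1
    · refine Finset.prod_congr rfl fun j hj => ?_
      rw [Matrix.transpose_apply, Matrix.updateRow_ne (Finset.ne_of_mem_erase hj)]
    · rw [Matrix.transpose_apply, Matrix.updateRow_self]
  have h1 : HasDerivAt (fun s => ∑ σ : Equiv.Perm n, ((Equiv.Perm.sign σ : ℤ) : ℝ) * ∏ i, M s i (σ i))
      (∑ σ : Equiv.Perm n, ((Equiv.Perm.sign σ : ℤ) : ℝ) *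
        ∑ i, (∏ j ∈ Finset.univ.erase i, M t j (σ j)) • N i (σ i)) t := by
    refine HasDerivAt.fun_sum fun σ _ => ?_
    refine HasDerivAt.const_mul _ ?_
    exact HasDerivAt.fun_finsetProd fun i _ => h i (σ i)
  have e3 : (∑ σ : Equiv.Perm n, ((Equiv.Perm.sign σ : ℤ) : ℝ) *
        ∑ i, (∏ j ∈ Finset.univ.erase i, M t j (σ j)) • N i (σ i)) =
      ∑ i, ((M t).updateRow i (N i)).det := by
    simp_rw [e2, Finset.mul_sum, smul_eq_mul]
    rw [Finset.sum_comm]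
  rw [← e3]
  simpa only [e] using h1

theorem LDT_core (A Y : ℝ → (Fin 4 → ℝ) →L[ℝ] (Fin 4 → ℝ)) (t : ℝ)
    (h : HasDerivAt Y ((A t).comp (Y t)) t) :
    HasDerivAt (fun s => (Y s).det) ((∑ i, A t (Pi.single i 1) i) * (Y t).det) t := by
  have hY : ∀ s, (Y s).det = (LinearMap.toMatrix' (Y s : (Fin 4 → ℝ) →ₗ[ℝ] (Fin 4 → ℝ))).det := by
    intro s
    rw [LinearMap.det_toMatrix']
  have hent : ∀ i j, HasDerivAt (fun s => LinearMap.toMatrix' (Y s : (Fin 4 → ℝ) →ₗ[ℝ] (Fin 4 → ℝ)) i j)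
      ((LinearMap.toMatrix' (A t : (Fin 4 → ℝ) →ₗ[ℝ] (Fin 4 → ℝ)) *
        LinearMap.toMatrix' (Y t : (Fin 4 → ℝ) →ₗ[ℝ] (Fin 4 → ℝ))) i j) t := by
    intro i j
    have h1 := h.clm_apply (hasDerivAt_const t (Pi.single j (1 : ℝ) : Fin 4 → ℝ))
    rw [map_zero, add_zero] at h1
    have h2 := (hasDerivAt_pi.1 h1) i
    rw [← LinearMap.toMatrix'_comp]
    simp only [LinearMap.toMatrix'_apply]
    exact h2
  have h3 := LDT_det (fun s => LinearMap.toMatrix' (Y s : (Fin 4 → ℝ) →ₗ[ℝ] (Fin 4 → ℝ)))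
    (LinearMap.toMatrix' (A t : (Fin 4 → ℝ) →ₗ[ℝ] (Fin 4 → ℝ)) *
        LinearMap.toMatrix' (Y t : (Fin 4 → ℝ) →ₗ[ℝ] (Fin 4 → ℝ))) t hent
  have h4 : ∀ i, ((LinearMap.toMatrix' (Y t : (Fin 4 → ℝ) →ₗ[ℝ] (Fin 4 → ℝ))).updateRow i
      ((LinearMap.toMatrix' (A t : (Fin 4 → ℝ) →ₗ[ℝ] (Fin 4 → ℝ)) *
        LinearMap.toMatrix' (Y t : (Fin 4 → ℝ) →ₗ[ℝ] (Fin 4 → ℝ))) i)).det =
      A t (Pi.single i 1) i * (LinearMap.toMatrix' (Y t : (Fin 4 → ℝ) →ₗ[ℝ] (Fin 4 → ℝ))).det := by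
    intro i
    have h5 : (LinearMap.toMatrix' (A t : (Fin 4 → ℝ) →ₗ[ℝ] (Fin 4 → ℝ)) *
        LinearMap.toMatrix' (Y t : (Fin 4 → ℝ) →ₗ[ℝ] (Fin 4 → ℝ))) i =
        ∑ k, (LinearMap.toMatrix' (A t : (Fin 4 → ℝ) →ₗ[ℝ] (Fin 4 → ℝ)) i k) •
          (LinearMap.toMatrix' (Y t : (Fin 4 → ℝ) →ₗ[ℝ] (Fin 4 → ℝ))) k := by
      ext j
      rw [Matrix.mul_apply, Finset.sum_apply]
      rfl
    rw [h5, Matrix.det_updateRow_sum, smul_eq_mul, LinearMap.toMatrix'_apply]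
    rfl
  simp only [h4] at h3
  rw [← Finset.sum_mul] at h3
  simp only [hY]
  exact h3

theorem LDT_proof : LDT_stmt := fun A Y t h => LDT_core A Y t h

end Pool.Agent.VQ
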