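import Pool.Agent.helper80.VQ.SpecFL

/-!
# Project VQ, row LVP: Liouville's theorem
-/

set_option autoImplicit false

open scoped MatrixGroups ContDiff Topology UpperHalfPlane ComplexConjugate ENNReal
open UpperHalfPlane MeasureTheory Filter Set

namespace Pool.Agent.VQ

open Pool.Agent.RS
open Pool.Agent.VQE (nm)

theorem LVP_det (hLDT : LDT_stmt) (f : F4 → F4) (Φ : ℝ → F4 → F4) (S : Set F4)
    (hΦ : CRO.IsC1Flow f Φ) (hS : ∀ t, ∀ x ∈ S, Φ t x ∈ S)
    (hd : ∀ x ∈ S, ∑ i, fderiv ℝ f x (Pi.single i 1) i = 0) (x : F4) (hx : x ∈ S) (t : ℝ) :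
    (fderiv ℝ (Φ t) x).det = 1 := by
  have h1 : ∀ s, HasDerivAt (fun s => (fderiv ℝ (Φ s) x).det) 0 s := by
    intro s
    have h2 := hLDT (fun s => fderiv ℝ f (Φ s x)) (fun s => fderiv ℝ (Φ s) x) s (hΦ.var x s)
    have h3 : (∑ i, fderiv ℝ f (Φ s x) (Pi.single i 1) i) = 0 := hd _ (hS s x hx)
    simp only [h3, zero_mul] at h2
    exact h2
  have h4 : (fderiv ℝ (Φ t) x).det = (fderiv ℝ (Φ 0) x).det :=
    is_const_of_deriv_eq_zero (fun s => (h1 s).differentiableAt) (fun s => (h1 s).deriv) t 0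
  have h5 : Φ 0 = id := funext fun y => hΦ.zero y
  rw [h4, h5, fderiv_id]
  exact LinearMap.det_id

theorem LVP_proof (hLDT : LDT_stmt) : LVP_stmt := by
  intro f Φ S A hΦ hS hd hA hAS t
  have hcont : Continuous (Φ t) :=
    hΦ.cont.comp (Continuous.prodMk continuous_const continuous_id)
  have hinv : ∀ z, Φ (-t) (Φ t z) = z := fun z => by
    rw [← hΦ.add, neg_add_cancel, hΦ.zero]
  have hinv' : ∀ z, Φ t (Φ (-t) z) = z := fun z => by
    rw [← hΦ.add, add_neg_cancel, hΦ.zero]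
  have hB : MeasurableSet (Φ t ⁻¹' A) := hcont.measurable hA
  have h1 := lintegral_abs_det_fderiv_eq_addHaar_image (volume : Measure F4) hB
    (fun z _ => ((hΦ.diff t z).hasFDerivAt).hasFDerivWithinAt)
    (fun x _ y _ hxy => by rw [← hinv x, ← hinv y, hxy])
  have h2 : Φ t '' (Φ t ⁻¹' A) = A :=
    image_preimage_eq A (fun z => ⟨Φ (-t) z, hinv' z⟩)
  rw [h2] at h1
  rw [← h1]
  have h3 : ∀ z ∈ Φ t ⁻¹' A, ENNReal.ofReal |(fderiv ℝ (Φ t) z).det| = 1 := by
    intro z hz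
    have hzS : z ∈ S := by
      rw [← hinv z]
      exact hS (-t) _ (hAS hz)
    rw [LVP_det hLDT f Φ S hΦ hS hd z hzS t]
    simp
  rw [setLIntegral_congr_fun hB h3, setLIntegral_const, one_mul]

end Pool.Agent.VQ
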