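import Pool.Agent.helper80.VQ.SpecFL

/-!
# Project VQ, row LMP: the cones over the subsets of `SL(2, ℝ)`
-/

set_option autoImplicit false

open scoped MatrixGroups ContDiff Topology UpperHalfPlane ComplexConjugate ENNReal
open UpperHalfPlane MeasureTheory Filter Set

namespace Pool.Agent.VQ

open Pool.Agent.RS
open Pool.Agent.VQE (nm)

noncomputable section

/-- the matrix of `lm4 g` -/
def LMP_M (g : SL(2, ℝ)) : Matrix (Fin 4) (Fin 4) ℝ :=
  !![g.1 0 0, 0, g.1 0 1, 0; 0, g.1 0 0, 0, g.1 0 1; g.1 1 0, 0, g.1 1 1, 0; 0, g.1 1 0, 0, g.1 1 1]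

theorem LMP_dg (g : SL(2, ℝ)) : g.1 0 0 * g.1 1 1 - g.1 0 1 * g.1 1 0 = 1 := by
  rw [← Matrix.det_fin_two]
  exact g.2

theorem LMP_det (g : SL(2, ℝ)) : (LMP_M g).det = 1 := by
  have h : (LMP_M g).det = (g.1 0 0 * g.1 1 1 - g.1 0 1 * g.1 1 0) ^ 2 := by
    simp [LMP_M, Matrix.det_succ_row_zero, Fin.sum_univ_succ, Fin.succAbove]
    ring
  rw [h, LMP_dg, one_pow]

theorem LMP_lin (g : SL(2, ℝ)) : lm4 g = (Matrix.toLin' (LMP_M g) : (Fin 4 → ℝ) → (Fin 4 → ℝ)) := by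
  ext x i
  rw [Matrix.toLin'_apply]
  fin_cases i <;> simp [lm4, LMP_M, Matrix.mulVec, dotProduct, Fin.sum_univ_four]

theorem LMP_mp (g : SL(2, ℝ)) : MeasurePreserving (lm4 g) volume volume := by
  constructor
  · rw [LMP_lin]
    exact (Matrix.toLin' (LMP_M g)).continuous_of_finiteDimensional.measurable
  · have h := Real.map_matrix_volume_pi_eq_smul_volume_pi (M := LMP_M g) (by rw [LMP_det]; exact one_ne_zero)
    rw [LMP_det] at h
    rw [LMP_lin, h]
    simp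

theorem LMP_dm (l : ℝ) (g : SL(2, ℝ)) : dt4 (l • m4 g) = l ^ 2 := by
  have h := LMP_dg g
  simp only [dt4, m4, Pi.smul_apply, smul_eq_mul, Matrix.cons_val]
  linear_combination l ^ 2 * h

/-- the normalised matrix -/
def LMP_N (x : {x : F4 // 0 < dt4 x}) : SL(2, ℝ) :=
  ⟨(√(dt4 x.1))⁻¹ • !![x.1 0, x.1 1; x.1 2, x.1 3], by
    have h0 : 0 < √(dt4 x.1) := Real.sqrt_pos.2 x.2
    have h1 : √(dt4 x.1) ^ 2 = dt4 x.1 := Real.sq_sqrt x.2.le
    have h2 : dt4 x.1 = x.1 0 * x.1 3 - x.1 1 * x.1 2 := rfl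
    rw [Matrix.det_smul, Matrix.det_fin_two]
    simp only [Fintype.card_fin, Matrix.of_apply, Matrix.cons_val', Matrix.cons_val_zero,
      Matrix.cons_val_one, Matrix.cons_val_fin_one]
    rw [← h2, ← h1, inv_pow]
    have : √(√(dt4 x.1) ^ 2) = √(dt4 x.1) := by rw [h1]
    rw [this, inv_mul_cancel₀ (by positivity)]⟩

theorem LMP_c (i : Fin 4) : Continuous fun x : {x : F4 // 0 < dt4 x} => x.1 i :=
  (continuous_apply i).comp continuous_subtype_val

theorem LMP_dc : Continuous fun x : {x : F4 // 0 < dt4 x} => dt4 x.1 :=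
  ((LMP_c 0).mul (LMP_c 3)).sub ((LMP_c 1).mul (LMP_c 2))

theorem LMP_Nc : Continuous LMP_N := by
  refine Continuous.subtype_mk ?_ _
  have hd := LMP_dc
  have hs : Continuous fun x : {x : F4 // 0 < dt4 x} => (√(dt4 x.1))⁻¹ :=
    (Real.continuous_sqrt.comp hd).inv₀ fun x => (Real.sqrt_pos.2 x.2).ne'
  refine hs.smul ?_
  refine continuous_matrix fun i j => ?_
  fin_cases i <;> fin_cases j
  · exact LMP_c 0
  · exact LMP_c 1
  · exact LMP_c 2
  · exact LMP_c 3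

theorem LMP_Nx (x : {x : F4 // 0 < dt4 x}) : x.1 = √(dt4 x.1) • m4 (LMP_N x) := by
  have h0 : √(dt4 x.1) ≠ 0 := (Real.sqrt_pos.2 x.2).ne'
  ext i
  fin_cases i <;> simp [m4, LMP_N] <;> field_simp

theorem LMP_inj (l l' : ℝ) (g h : SL(2, ℝ)) (hl : 0 < l) (hl' : 0 < l')
    (he : l • m4 g = l' • m4 h) : l = l' ∧ g = h := by
  have h1 : l ^ 2 = l' ^ 2 := by rw [← LMP_dm l g, he, LMP_dm]
  have h2 : l = l' := by
    exact (pow_left_inj₀ hl.le hl'.le two_ne_zero).1 h1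
  refine ⟨h2, ?_⟩
  subst h2
  have h3 : m4 g = m4 h := smul_right_injective _ hl.ne' he
  apply Subtype.ext
  ext i j
  have h30 := congrFun h3 0
  have h31 := congrFun h3 1
  have h32 := congrFun h3 2
  have h33 := congrFun h3 3
  simp only [m4, Matrix.cons_val] at h30 h31 h32 h33
  fin_cases i <;> fin_cases j
  · exact h30
  · exact h31
  · exact h32
  · exact h33

theorem LMP_cone (A : Set SL(2, ℝ)) : cn4 A = Subtype.val '' {x : {x : F4 // 0 < dt4 x} |
    (81 / 100 < dt4 x.1 ∧ dt4 x.1 < 121 / 100) ∧ LMP_N x ∈ A} := by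
  ext x
  constructor
  · rintro ⟨l, h1, h2, g, hg, rfl⟩
    have hd : 0 < dt4 (l • m4 g) := by rw [LMP_dm]; positivity
    refine ⟨⟨l • m4 g, hd⟩, ⟨⟨?_, ?_⟩, ?_⟩, rfl⟩
    · show 81 / 100 < dt4 (l • m4 g)
      rw [LMP_dm]
      nlinarith
    · show dt4 (l • m4 g) < 121 / 100
      rw [LMP_dm]
      nlinarith
    · have h3 := LMP_Nx ⟨l • m4 g, hd⟩
      have h4 := LMP_inj l _ g _ (by linarith) (Real.sqrt_pos.2 hd) h3
      rw [← h4.2]
      exact hg
  · rintro ⟨y, ⟨⟨h1, h2⟩, h3⟩, rfl⟩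
    refine ⟨√(dt4 y.1), ?_, ?_, LMP_N y, h3, LMP_Nx y⟩
    · rw [show (9 / 10 : ℝ) = √((9 / 10) ^ 2) by rw [Real.sqrt_sq (by norm_num)]]
      exact Real.sqrt_lt_sqrt (by norm_num) (by linarith)
    · rw [show (11 / 10 : ℝ) = √((11 / 10) ^ 2) by rw [Real.sqrt_sq (by norm_num)]]
      exact Real.sqrt_lt_sqrt y.2.le (by linarith)

theorem LMP_proof : LMP_stmt := by
  refine ⟨LMP_mp, ?_, ?_, ?_, ?_, LMP_inj⟩
  · intro g h
    ext i
    fin_cases i <;> simp [lm4, m4, Matrix.mul_apply, Fin.sum_univ_two]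
  · intro g l x
    rw [LMP_lin, map_smul]
  · intro A hA
    rw [LMP_cone]
    have ho : IsOpen {x : F4 | 0 < dt4 x} := by
      refine isOpen_lt continuous_const ?_
      unfold dt4
      fun_prop
    have hd := LMP_dc
    refine (MeasurableEmbedding.subtype_coe ho.measurableSet).measurableSet_image.2 ?_
    refine MeasurableSet.inter (MeasurableSet.inter ?_ ?_) (LMP_Nc.measurable hA)
    · exact (isOpen_lt continuous_const hd).measurableSet
    · exact (isOpen_lt hd continuous_const).measurableSet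
  · intro x
    rw [LMP_cone]
    constructor
    · rintro ⟨y, ⟨h, -⟩, rfl⟩
      exact h
    · intro h
      exact ⟨⟨x, by linarith [h.1]⟩, ⟨h, mem_univ _⟩, rfl⟩

end

end Pool.Agent.VQ
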